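import Mathlib
import Pool.Agent.V11282.RJ.Lim2
import Pool.Agent.V11282.RJ.Conv

/-!
# A Rajchman probability measure whose spectrum on `H¹₀` is the closed unit disc

We construct a probability measure `μ` on the circle `ℝ / 2πℤ` with Fourier coefficients tending
to zero such that convolution by `μ`, as a bounded operator on `H¹₀`, has spectrum the closed unit
disc.

The measure is the law of a sum of independent blocks; the block at scale `δ` is uniform on a
finite set of points `δ u_κ`, where the `u_κ` are chosen in `[0,1]` so that words of length `M`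
with different contents have well separated sums (only polynomially small in the number of points)
while the exponential sums of the block are small in a much longer range.  The approximate
eigenvectors are Cesàro means of powers of the two halves of the block applied to the kernel
`(1 - r) z / (1 - r z)²`, whose mass concentrates near the origin.
-/

set_option autoImplicit false

open MeasureTheory Filter Topology AddCircle

namespace Pool.Agent.Results.MP_ab3f56_an.RajchmanDisc

noncomputable section

/-- the circle `ℝ / 2πℤ` -/
abbrev TT := Pool.Agent.V11282.RJ.TT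

/-- `L¹` of the circle for normalised Haar measure -/
def L1 : Type := Lp ℂ 1 (haarAddCircle : Measure TT)

instance instL1 : NormedAddCommGroup L1 := Lp.instNormedAddCommGroup

instance instL1s : NormedSpace ℂ L1 := Lp.instNormedSpace

/-- a function representing an element of `L¹` -/
def fn (f : L1) : TT → ℂ := ⇑(Subtype.val f)

/-- the Fourier coefficients of `f` of index `n ≤ 0` vanish -/
def Van (f : L1) : Prop := ∀ n : ℤ, n ≤ 0 → fourierCoeff (fn f) n = 0

lemma van_add {a b : L1} (ha : Van a) (hb : Van b) : Van (a + b) :=
  Pool.Agent.V11282.RJ.H10.add_mem' (a := a) (b := b) ha hb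

lemma van_zero : Van 0 := Pool.Agent.V11282.RJ.H10.zero_mem'

lemma van_smul (c : ℂ) {a : L1} (ha : Van a) : Van (c • a) :=
  Pool.Agent.V11282.RJ.H10.smul_mem' c (x := a) ha

/-- the subspace of the `f` whose Fourier coefficients of index `n ≤ 0` vanish -/
def sub : Submodule ℂ L1 where
  carrier := {f | Van f}
  add_mem' := van_add
  zero_mem' := van_zero
  smul_mem' := fun c _ ha => van_smul c ha

/-- the space `H¹₀` -/
def H10 : Type := sub

instance instH : NormedAddCommGroup H10 := Submodule.normedAddCommGroup sub

instance instHs : NormedSpace ℂ H10 := Submodule.normedSpace sub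

/-- a function representing an element of `H¹₀` -/
def hfn (f : H10) : TT → ℂ := fn (Subtype.val f)

/-- Fourier coefficients of a measure -/
def coef (μ : Measure TT) (n : ℤ) : ℂ := ∫ t, (fourier (-n) t : ℂ) ∂μ

/-- the spectrum of a bounded operator on a complex normed space -/
def spec {E : Type} [NormedAddCommGroup E] [NormedSpace ℂ E] (T : E →L[ℂ] E) : Set ℂ :=
  spectrum ℂ T

/-- `T` is convolution by `μ` on `H¹₀` -/
def IsConv (μ : Measure TT) (T : H10 →L[ℂ] H10) : Prop :=
  ∀ f : H10, (∀ᵐ x ∂(haarAddCircle : Measure TT), hfn (T f) x = ∫ y, hfn f (x - y) ∂μ) ∧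
    ∀ n : ℤ, fourierCoeff (hfn (T f)) n = coef μ n * fourierCoeff (hfn f) n

end

/-- There is a probability measure `μ` on `ℝ / 2πℤ` with Fourier coefficients tending to zero
such that convolution by `μ` on `H¹₀` has spectrum equal to the closed unit disc. -/
theorem result :
    ∃ μ : Measure TT, IsProbabilityMeasure μ ∧ Tendsto (coef μ) cofinite (𝓝 0) ∧
      ∃ T : H10 →L[ℂ] H10, IsConv μ T ∧ spec T = {z : ℂ | ‖z‖ ≤ 1} := by
  refine ⟨(Pool.Agent.V11282.RJ.mu : Measure TT), inferInstance, Pool.Agent.V11282.RJ.rajchman,
    Pool.Agent.V11282.RJ.cvH (Pool.Agent.V11282.RJ.mu : Measure TT), ?_, ?_⟩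
  · intro f
    refine ⟨?_, ?_⟩
    · exact Pool.Agent.V11282.RJ.cv_ae (Pool.Agent.V11282.RJ.mu : Measure TT) (Subtype.val f)
    · intro n
      exact Pool.Agent.V11282.RJ.fc_cv (Pool.Agent.V11282.RJ.mu : Measure TT) n (Subtype.val f)
  · have h := Pool.Agent.V11282.RJ.spectrum_mu
    have h2 : Metric.closedBall (0 : ℂ) 1 = {z : ℂ | ‖z‖ ≤ 1} := by
      ext z
      simp
    rw [h2] at h
    exact h

end Pool.Agent.Results.MP_ab3f56_an.RajchmanDisc
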